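import Pool.Agent.Helper53.BM.MH.Defs

/-!
# Bounded equivariant maps are Lipschitz
-/

set_option autoImplicit false

open Filter Topology

namespace Pool.Agent.Helper53.BM

namespace Princ

variable {E V : Type*} [NormedAddCommGroup E] [NormedSpace ℝ E] [NormedAddCommGroup V]
  [NormedSpace ℝ V]

/-- Normalisation. -/
noncomputable def nz (z : E) : E := ‖z‖⁻¹ • z

lemma norm_nz {z : E} (hz : z ≠ 0) : ‖nz z‖ = 1 := by
  unfold nz
  rw [norm_smul, norm_inv, norm_norm, inv_mul_cancel₀ (norm_ne_zero_iff.2 hz)]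

lemma nz_of_unit {z : E} (hz : ‖z‖ = 1) : nz z = z := by
  unfold nz; rw [hz, inv_one, one_smul]

lemma nz_sub_le {a b : E} (ha : a ≠ 0) (hb : b ≠ 0) : ‖nz a - nz b‖ ≤ 2 * ‖a - b‖ / ‖a‖ := by
  have ha' : 0 < ‖a‖ := norm_pos_iff.2 ha
  have hb' : 0 < ‖b‖ := norm_pos_iff.2 hb
  have e : nz a - nz b = ‖a‖⁻¹ • (a - b) + (‖a‖⁻¹ - ‖b‖⁻¹) • b := by
    unfold nz
    rw [smul_sub, sub_smul]
    abel
  rw [e]
  refine (norm_add_le _ _).trans ?_
  rw [norm_smul, norm_smul, norm_inv, norm_norm, Real.norm_eq_abs]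
  have h1 : |‖a‖⁻¹ - ‖b‖⁻¹| * ‖b‖ = |‖b‖ - ‖a‖| / ‖a‖ := by
    rw [inv_sub_inv ha'.ne' hb'.ne', abs_div, abs_of_pos (mul_pos ha' hb')]
    field_simp
  rw [h1]
  have h2 : |‖b‖ - ‖a‖| ≤ ‖a - b‖ := by
    rw [abs_sub_comm]; exact abs_norm_sub_norm_le a b
  have h3 : |‖b‖ - ‖a‖| / ‖a‖ ≤ ‖a - b‖ / ‖a‖ := by gcongr
  calc ‖a‖⁻¹ * ‖a - b‖ + |‖b‖ - ‖a‖| / ‖a‖ ≤ ‖a‖⁻¹ * ‖a - b‖ + ‖a - b‖ / ‖a‖ := by linarith
    _ = 2 * ‖a - b‖ / ‖a‖ := by ring

/-- Discrete mean value property. -/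
lemma ivt (g : ℝ → ℝ) (m : ℕ) (hm : 0 < m) (hg : ContinuousOn g (Set.Icc 0 ((m : ℝ) - 1)))
    {K : ℝ} (hK : 0 ≤ K) (hsum : |∑ j ∈ Finset.range m, g j| ≤ K) :
    ∃ t ∈ Set.Icc (0 : ℝ) ((m : ℝ) - 1), |g t| ≤ K / m := by
  by_contra hcon
  push Not at hcon
  have hm' : (0 : ℝ) < m := by exact_mod_cast hm
  have hKm : 0 ≤ K / m := by positivity
  have hmem : ∀ j ∈ Finset.range m, (j : ℝ) ∈ Set.Icc (0 : ℝ) ((m : ℝ) - 1) := by
    intro j hj
    rw [Finset.mem_range] at hj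
    refine ⟨by positivity, ?_⟩
    have : (j : ℝ) + 1 ≤ m := by exact_mod_cast hj
    linarith
  have h0 : (0 : ℝ) ∈ Set.Icc (0 : ℝ) ((m : ℝ) - 1) := by
    have := hmem 0 (Finset.mem_range.2 hm)
    simpa using this
  have hsign : ∀ t ∈ Set.Icc (0 : ℝ) ((m : ℝ) - 1), 0 < g 0 * g t := by
    intro t ht
    by_contra hneg
    push Not at hneg
    have hsub : Set.uIcc 0 t ⊆ Set.Icc (0 : ℝ) ((m : ℝ) - 1) := by
      rw [Set.uIcc_of_le ht.1]
      exact Set.Icc_subset_Icc le_rfl ht.2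
    have := intermediate_value_uIcc (hg.mono hsub)
    have h00 : (0 : ℝ) ∈ Set.uIcc (g 0) (g t) := by
      rw [Set.mem_uIcc]
      rcases le_total 0 (g 0) with h | h
      · right
        refine ⟨?_, h⟩
        by_contra hc
        push Not at hc
        have hg0 : g 0 ≠ 0 := by
          intro h'
          have := hcon 0 h0
          rw [h', abs_zero] at this
          linarith
        have : 0 < g 0 := lt_of_le_of_ne h (Ne.symm hg0)
        nlinarith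
      · left
        refine ⟨h, ?_⟩
        by_contra hc
        push Not at hc
        have hg0 : g 0 ≠ 0 := by
          intro h'
          have := hcon 0 h0
          rw [h', abs_zero] at this
          linarith
        have : g 0 < 0 := lt_of_le_of_ne h hg0
        nlinarith
    obtain ⟨s, hs, hs'⟩ := this h00
    have := hcon s (hsub hs)
    rw [hs', abs_zero] at this
    linarith
  have hcard : (∑ j ∈ Finset.range m, (K / m : ℝ)) = K := by
    rw [Finset.sum_const, Finset.card_range, nsmul_eq_mul]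
    field_simp
  have hne : (Finset.range m).Nonempty := ⟨0, Finset.mem_range.2 hm⟩
  have hg0 : 0 < g 0 * g 0 := hsign 0 h0
  rcases lt_or_ge 0 (g 0) with h | h
  · have h1 : ∀ j ∈ Finset.range m, K / m < g j := by
      intro j hj
      have h2 := hcon j (hmem j hj)
      have h3 := hsign j (hmem j hj)
      have h4 : 0 < g j := by
        by_contra hc
        push Not at hc
        nlinarith
      rwa [abs_of_pos h4] at h2
    have h5 := Finset.sum_lt_sum_of_nonempty hne h1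
    rw [hcard] at h5
    have := le_abs_self (∑ j ∈ Finset.range m, g j)
    linarith
  · have h1 : ∀ j ∈ Finset.range m, K / m < -g j := by
      intro j hj
      have h2 := hcon j (hmem j hj)
      have h3 := hsign j (hmem j hj)
      have h4 : g j < 0 := by
        by_contra hc
        push Not at hc
        nlinarith
      rwa [abs_of_neg h4] at h2
    have h5 := Finset.sum_lt_sum_of_nonempty hne h1
    rw [hcard, Finset.sum_neg_distrib] at h5
    have := neg_abs_le (∑ j ∈ Finset.range m, g j)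
    linarith

/-- Modulus of continuity on the sphere. -/
noncomputable def nu (F : E → V) (s : ℝ) : ℝ :=
  sSup {r | ∃ x y : E, ‖x‖ = 1 ∧ ‖y‖ = 1 ∧ ‖x - y‖ ≤ s ∧ r = ‖F x - F y‖}

omit [NormedSpace ℝ E] [NormedSpace ℝ V] in
lemma nu_bdd {F : E → V} {B : ℝ} (hB : ∀ x : E, ‖x‖ = 1 → ‖F x‖ ≤ B) (s : ℝ) :
    BddAbove {r | ∃ x y : E, ‖x‖ = 1 ∧ ‖y‖ = 1 ∧ ‖x - y‖ ≤ s ∧ r = ‖F x - F y‖} := by
  refine ⟨2 * B, ?_⟩
  rintro r ⟨x, y, hx, hy, -, rfl⟩
  have := norm_sub_le (F x) (F y)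
  have := hB x hx
  have := hB y hy
  linarith

omit [NormedSpace ℝ E] [NormedSpace ℝ V] in
lemma le_nu {F : E → V} {B : ℝ} (hB : ∀ x : E, ‖x‖ = 1 → ‖F x‖ ≤ B) {s : ℝ} {x y : E}
    (hx : ‖x‖ = 1) (hy : ‖y‖ = 1) (h : ‖x - y‖ ≤ s) : ‖F x - F y‖ ≤ nu F s :=
  le_csSup (nu_bdd hB s) ⟨x, y, hx, hy, h, rfl⟩

omit [NormedSpace ℝ E] [NormedSpace ℝ V] in
lemma nu_le {F : E → V} {s M : ℝ} (hne : ∃ x : E, ‖x‖ = 1) (hs : 0 ≤ s)
    (h : ∀ x y : E, ‖x‖ = 1 → ‖y‖ = 1 → ‖x - y‖ ≤ s → ‖F x - F y‖ ≤ M) : nu F s ≤ M := by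
  obtain ⟨x, hx⟩ := hne
  refine csSup_le ⟨‖F x - F x‖, x, x, hx, hx, by simpa using hs, rfl⟩ ?_
  rintro r ⟨x, y, hx, hy, hxy, rfl⟩
  exact h x y hx hy hxy

omit [NormedSpace ℝ E] [NormedSpace ℝ V] in
lemma nu_mono {F : E → V} {B : ℝ} (hB : ∀ x : E, ‖x‖ = 1 → ‖F x‖ ≤ B) (hne : ∃ x : E, ‖x‖ = 1)
    {s s' : ℝ} (hs : 0 ≤ s) (h : s ≤ s') : nu F s ≤ nu F s' :=
  nu_le hne hs fun _ _ hx hy hxy => le_nu hB hx hy (hxy.trans h)

omit [NormedSpace ℝ E] [NormedSpace ℝ V] in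
lemma nu_nonneg {F : E → V} {B : ℝ} (hB : ∀ x : E, ‖x‖ = 1 → ‖F x‖ ≤ B)
    (hne : ∃ x : E, ‖x‖ = 1) {s : ℝ} (hs : 0 ≤ s) : 0 ≤ nu F s := by
  obtain ⟨x, hx⟩ := hne
  have := le_nu hB (s := s) hx hx (by simpa using hs)
  simpa using this

/-- The equivariance hypothesis at one scale. -/
def Eqv (F : E → V) (ε t : ℝ) : Prop :=
  ∀ x y : E, ‖x‖ = 1 → ‖y‖ = 1 → ‖x - y‖ ≤ t →
      ∃ (T : E ≃ₗᵢ[ℝ] E) (τ : V →ₗ[ℝ] V), T x = y ∧ CloseToId T ε ∧
        (∀ v : V, ‖τ v - v‖ ≤ ε * ‖v‖) ∧ ∀ z : E, z ≠ 0 → F (T z) = τ (F z)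

lemma step_a {F : E → V} {B : ℝ} (hB : ∀ x : E, ‖x‖ = 1 → ‖F x‖ ≤ B) (hne : ∃ x : E, ‖x‖ = 1)
    {ε t : ℝ} (hε : 0 ≤ ε) (ht : Eqv F ε t) {n : ℕ} (hn : 0 < n) {s : ℝ} (hs : 0 ≤ s)
    (hst : s ≤ t) : nu F s ≤ (1 / n + ε) * nu F (n * s) := by
  refine nu_le hne hs fun x y hx hy hxy => ?_
  obtain ⟨T, τ, hTx, -, hτ, hF⟩ := ht x y hx hy (hxy.trans hst)
  have hn' : (0 : ℝ) < n := by exact_mod_cast hn
  have hunit : ∀ k : ℕ, ‖T^[k] x‖ = 1 := by
    intro k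
    induction k with
    | zero => simpa using hx
    | succ k ih => rw [Function.iterate_succ_apply', T.norm_map, ih]
  have hdist : ∀ k : ℕ, ‖T^[k] x - x‖ ≤ k * ‖x - y‖ := by
    intro k
    induction k with
    | zero => simp
    | succ k ih =>
      rw [Function.iterate_succ_apply']
      have e : T (T^[k] x) - x = T (T^[k] x - x) + (y - x) := by
        rw [map_sub, hTx]; abel
      rw [e]
      refine (norm_add_le _ _).trans ?_
      rw [T.norm_map, norm_sub_rev y x]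
      push_cast
      linarith
  set v : ℕ → V := fun k => F (T^[k] x) with hv
  have hstep : ∀ k, v (k + 1) = τ (v k) := by
    intro k
    simp only [hv]
    rw [Function.iterate_succ_apply']
    refine hF _ ?_
    rw [← norm_ne_zero_iff, hunit]; exact one_ne_zero
  have hbd : ∀ k, k ≤ n → ‖v k - v 0‖ ≤ nu F (n * s) := by
    intro k hk
    refine le_nu hB (hunit k) (hunit 0) ?_
    have h1 := hdist k
    have h2 : (k : ℝ) ≤ n := by exact_mod_cast hk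
    calc ‖T^[k] x - T^[0] x‖ = ‖T^[k] x - x‖ := rfl
      _ ≤ k * ‖x - y‖ := h1
      _ ≤ n * s := by gcongr
  have hid : (n : ℝ) • (v 1 - v 0) =
      (v n - v 0) - ∑ k ∈ Finset.range n, (τ (v k - v 0) - (v k - v 0)) := by
    have h1 : ∀ k, τ (v k - v 0) - (v k - v 0) = (v (k + 1) - v k) - (v 1 - v 0) := by
      intro k
      rw [map_sub, ← hstep k, ← hstep 0]
      abel
    simp_rw [h1]
    rw [Finset.sum_sub_distrib, Finset.sum_range_sub, Finset.sum_const, Finset.card_range,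
      ← Nat.cast_smul_eq_nsmul ℝ]
    abel
  have h1 : n * ‖v 1 - v 0‖ ≤ nu F (n * s) + n * (ε * nu F (n * s)) := by
    have h2 : ‖(n : ℝ) • (v 1 - v 0)‖ = n * ‖v 1 - v 0‖ := by
      rw [norm_smul, Real.norm_eq_abs, abs_of_pos hn']
    rw [← h2, hid]
    refine (norm_sub_le _ _).trans ?_
    have h3 : ‖∑ k ∈ Finset.range n, (τ (v k - v 0) - (v k - v 0))‖ ≤
        n * (ε * nu F (n * s)) := by
      refine (norm_sum_le _ _).trans ?_
      have : ∑ k ∈ Finset.range n, ‖τ (v k - v 0) - (v k - v 0)‖ ≤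
          ∑ _k ∈ Finset.range n, ε * nu F (n * s) := by
        refine Finset.sum_le_sum fun k hk => (hτ _).trans ?_
        have := hbd k (Finset.mem_range.1 hk).le
        gcongr
      rwa [Finset.sum_const, Finset.card_range, nsmul_eq_mul] at this
    have h4 := hbd n le_rfl
    linarith
  have h5 : ‖F x - F y‖ = ‖v 1 - v 0‖ := by
    have e1 : v 1 = F y := by
      change F (T^[1] x) = F y
      rw [Function.iterate_one, hTx]
    have e0 : v 0 = F x := rfl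
    rw [e1, e0, norm_sub_rev]
  rw [h5]
  have h6 : (1 / n + ε) * nu F (n * s) = (nu F (n * s) + n * (ε * nu F (n * s))) / n := by
    field_simp
  rw [h6, le_div_iff₀ hn']
  linarith

lemma F_nz {F : E → V} (hhom : ∀ x : E, x ≠ 0 → ∀ c : ℝ, 0 < c → F (c • x) = F x) {z : E}
    (hz : z ≠ 0) : F (nz z) = F z :=
  hhom z hz _ (inv_pos.2 (norm_pos_iff.2 hz))

lemma F_bound {F : E → V} {B : ℝ} (hB : ∀ x : E, ‖x‖ = 1 → ‖F x‖ ≤ B)
    (hhom : ∀ x : E, x ≠ 0 → ∀ c : ℝ, 0 < c → F (c • x) = F x) {z : E} (hz : z ≠ 0) :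
    ‖F z‖ ≤ B := by
  rw [← F_nz hhom hz]; exact hB _ (norm_nz hz)

lemma F_cont {F : E → V} {B : ℝ} (hB : ∀ x : E, ‖x‖ = 1 → ‖F x‖ ≤ B)
    (hhom : ∀ x : E, x ≠ 0 → ∀ c : ℝ, 0 < c → F (c • x) = F x)
    (heq : ∀ ε : ℝ, 0 < ε → ∃ t : ℝ, 0 < t ∧ Eqv F ε t) {z : E} (hz : z ≠ 0) :
    ContinuousAt F z := by
  have hB0 : 0 ≤ B := (norm_nonneg _).trans (hB _ (norm_nz hz))
  rw [Metric.continuousAt_iff]
  intro ε hε
  obtain ⟨t, ht, hE⟩ := heq (ε / (2 * (B + 1))) (by positivity)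
  have hz' : 0 < ‖z‖ := norm_pos_iff.2 hz
  refine ⟨min (‖z‖) (t * ‖z‖ / 2), by positivity, fun {w} hw => ?_⟩
  have hw1 : dist w z < ‖z‖ := lt_of_lt_of_le hw (min_le_left _ _)
  have hw2 : dist w z < t * ‖z‖ / 2 := lt_of_lt_of_le hw (min_le_right _ _)
  have hw0 : w ≠ 0 := by
    rintro rfl
    rw [dist_zero_left] at hw1
    exact lt_irrefl _ hw1
  have hnd : ‖nz z - nz w‖ ≤ t := by
    refine (nz_sub_le hz hw0).trans ?_
    rw [div_le_iff₀ hz']
    rw [dist_eq_norm, norm_sub_rev] at hw2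
    linarith
  obtain ⟨T, τ, hT, -, hτ, hF⟩ := hE _ _ (norm_nz hz) (norm_nz hw0) hnd
  have hnz : nz z ≠ 0 := by
    rw [← norm_ne_zero_iff, norm_nz hz]; exact one_ne_zero
  rw [dist_eq_norm, ← F_nz hhom hz, ← F_nz hhom hw0, ← hT, hF _ hnz]
  refine (hτ _).trans_lt ?_
  have h1 : ‖F (nz z)‖ ≤ B := hB _ (norm_nz hz)
  calc ε / (2 * (B + 1)) * ‖F (nz z)‖ ≤ ε / (2 * (B + 1)) * (B + 1) := by
        gcongr; linarith
    _ = ε / 2 := by field_simp
    _ < ε := by linarith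

lemma step_c {F : E → V} {B : ℝ} (hB : ∀ x : E, ‖x‖ = 1 → ‖F x‖ ≤ B)
    (hhom : ∀ x : E, x ≠ 0 → ∀ c : ℝ, 0 < c → F (c • x) = F x)
    (hcont : ∀ z : E, z ≠ 0 → ContinuousAt F z)
    {θ t δ : ℝ} (hθ0 : 0 ≤ θ) (hθ : θ ≤ 1 / 64) (ht : Eqv F θ t) (hδ0 : 0 < δ) (hδt : 2 * δ ≤ t)
    (hδ : δ ≤ 1 / 128) {x y : E} (hx : ‖x‖ = 1) (hy : ‖y‖ = 1) (hxy : x ≠ y)
    (hs : ‖x - y‖ ≤ δ) :
    ‖F x - F y‖ ≤ 4 * B * ‖x - y‖ / δ + nu F (‖x - y‖ / 8) + θ * nu F (4 * ‖x - y‖) := by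
  have hne : ∃ x : E, ‖x‖ = 1 := ⟨x, hx⟩
  have hB0 : 0 ≤ B := (norm_nonneg _).trans (hB x hx)
  set k : E := y - x with hk
  have hkn : ‖x - y‖ = ‖k‖ := by rw [hk, norm_sub_rev]
  rw [hkn] at hs ⊢
  have hk0 : 0 < ‖k‖ := by
    rw [hk, norm_pos_iff, sub_ne_zero]; exact hxy.symm
  have hx0 : x ≠ 0 := by
    rw [← norm_ne_zero_iff, hx]; exact one_ne_zero
  have hy0 : y ≠ 0 := by
    rw [← norm_ne_zero_iff, hy]; exact one_ne_zero
  -- the number of steps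
  set m : ℕ := ⌊δ / ‖k‖⌋₊ with hm
  have hq1 : 1 ≤ δ / ‖k‖ := by rw [le_div_iff₀ hk0]; linarith
  have hm1 : 1 ≤ m := Nat.le_floor (by exact_mod_cast hq1)
  have hm0 : 0 < m := hm1
  have hm' : (0 : ℝ) < m := by exact_mod_cast hm0
  have hmδ : m * ‖k‖ ≤ δ := by
    have := Nat.floor_le (by positivity : 0 ≤ δ / ‖k‖)
    rw [le_div_iff₀ hk0] at this
    exact this
  have hm2 : δ / (2 * ‖k‖) ≤ m := by
    have h1 := Nat.lt_floor_add_one (δ / ‖k‖)
    rw [← hm] at h1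
    have h2 : (1 : ℝ) ≤ m := by exact_mod_cast hm1
    have h3 : δ / (2 * ‖k‖) = δ / ‖k‖ / 2 := by field_simp
    rw [h3]
    linarith
  -- points of the segment
  have hseg : ∀ r : ℝ, 0 ≤ r → r ≤ m → ‖r • k‖ ≤ δ := by
    intro r hr0 hrm
    rw [norm_smul, Real.norm_eq_abs, abs_of_nonneg hr0]
    exact (mul_le_mul_of_nonneg_right hrm hk0.le).trans hmδ
  have hnz : ∀ w : E, ‖w‖ ≤ 1 / 2 → x + w ≠ 0 := by
    intro w hw h0
    have h1 : x = -w := by rw [eq_neg_iff_add_eq_zero]; exact h0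
    have h2 : ‖x‖ = ‖w‖ := by rw [h1, norm_neg]
    linarith
  obtain ⟨ξ, hξ1, hξ2⟩ := exists_dual_vector'' ℝ (F y - F x)
  have hξ : ∀ v : V, |ξ v| ≤ ‖v‖ := by
    intro v
    have := ξ.le_opNorm v
    rw [Real.norm_eq_abs] at this
    refine this.trans ?_
    calc ‖ξ‖ * ‖v‖ ≤ 1 * ‖v‖ := by gcongr
      _ = ‖v‖ := one_mul _
  set g : ℝ → ℝ := fun r => ξ (F (x + (r + 1) • k)) - ξ (F (x + r • k)) with hg
  have hgc : ContinuousOn g (Set.Icc 0 ((m : ℝ) - 1)) := by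
    intro r hr
    have h1 : x + (r + 1) • k ≠ 0 := hnz _ ((hseg (r + 1) (by linarith [hr.1])
      (by linarith [hr.2])).trans (by linarith))
    have h2 : x + r • k ≠ 0 := hnz _ ((hseg r hr.1 (by linarith [hr.2])).trans (by linarith))
    have c1 : ContinuousAt (fun r : ℝ => F (x + (r + 1) • k)) r :=
      ContinuousAt.comp (f := fun r : ℝ => x + (r + 1) • k) (hcont _ h1) (by fun_prop)
    have c2 : ContinuousAt (fun r : ℝ => F (x + r • k)) r :=
      ContinuousAt.comp (f := fun r : ℝ => x + r • k) (hcont _ h2) (by fun_prop)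
    exact ((ξ.continuous.continuousAt.comp c1).sub
      (ξ.continuous.continuousAt.comp c2)).continuousWithinAt
  have hgs : |∑ j ∈ Finset.range m, g j| ≤ 2 * B := by
    have h1 : ∑ j ∈ Finset.range m, g j = ξ (F (x + (m : ℝ) • k)) - ξ (F x) := by
      have := Finset.sum_range_sub (fun j : ℕ => ξ (F (x + (j : ℝ) • k))) m
      simp only [Nat.cast_zero, zero_smul, add_zero] at this
      rw [← this]
      refine Finset.sum_congr rfl fun j _ => ?_
      simp only [hg]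
      push_cast
      rfl
    rw [h1]
    have h2 : x + (m : ℝ) • k ≠ 0 := hnz _ ((hseg m hm'.le le_rfl).trans (by linarith))
    have h3 := (hξ (F (x + (m : ℝ) • k))).trans (F_bound hB hhom h2)
    have h4 := (hξ (F x)).trans (hB x hx)
    have := abs_sub (ξ (F (x + (m : ℝ) • k))) (ξ (F x))
    linarith
  obtain ⟨t0, ht0, hgt⟩ := ivt g m hm0 hgc (by positivity) hgs
  have hgt' : |g t0| ≤ 4 * B * ‖k‖ / δ := by
    refine hgt.trans ?_
    rw [div_le_div_iff₀ hm' hδ0]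
    rw [div_le_iff₀ (by positivity)] at hm2
    nlinarith
  -- the isometry
  set p : E := x + t0 • k with hp
  have hpx : ‖t0 • k‖ ≤ δ := hseg t0 ht0.1 (by linarith [ht0.2])
  have hp0 : p ≠ 0 := hnz _ (hpx.trans (by linarith))
  have hpn : 0 < ‖p‖ := norm_pos_iff.2 hp0
  have hpl : |‖p‖ - 1| ≤ δ := by
    rw [← hx]
    refine (abs_norm_sub_norm_le p x).trans ?_
    rw [hp, add_sub_cancel_left]
    exact hpx
  have hpl' := abs_le.1 hpl
  have hnpx : ‖x - nz p‖ ≤ t := by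
    have h1 := nz_sub_le hx0 hp0
    rw [nz_of_unit hx, hx, div_one] at h1
    refine h1.trans (le_trans ?_ hδt)
    have : ‖x - p‖ ≤ δ := by
      rw [hp, sub_add_cancel_left, norm_neg]; exact hpx
    linarith
  obtain ⟨T, τ, hT, hTc, hτ, hF⟩ := ht x (nz p) hx (norm_nz hp0) hnpx
  set k' : E := ‖p‖⁻¹ • T.symm k with hk'
  have hk'n : ‖k'‖ ≤ 2 * ‖k‖ := by
    rw [hk', norm_smul, norm_inv, norm_norm, T.symm.norm_map]
    have : ‖p‖⁻¹ ≤ 2 := by
      rw [inv_le_iff_one_le_mul₀ hpn]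
      linarith
    gcongr
  have hkk' : ‖k - k'‖ ≤ ‖k‖ / 32 := by
    have e : k - k' = -(T.symm k - k) + (1 - ‖p‖⁻¹) • T.symm k := by
      rw [hk', sub_smul, one_smul]; abel
    rw [e]
    refine (norm_add_le _ _).trans ?_
    rw [norm_neg, norm_smul, T.symm.norm_map, Real.norm_eq_abs]
    have h1 := CloseToId.symm hTc k
    have h2 : |1 - ‖p‖⁻¹| ≤ 1 / 64 := by
      have e2 : 1 - ‖p‖⁻¹ = (‖p‖ - 1) / ‖p‖ := by field_simp
      rw [e2, abs_div, abs_of_pos hpn, div_le_iff₀ hpn]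
      linarith
    have h3 : |1 - ‖p‖⁻¹| * ‖k‖ ≤ 1 / 64 * ‖k‖ := by gcongr
    have h4 : θ * ‖k‖ ≤ 1 / 64 * ‖k‖ := by gcongr
    linarith
  have hxk' : x + k' ≠ 0 := hnz _ (hk'n.trans (by linarith))
  have hFp : F p = τ (F x) := by
    rw [← F_nz hhom hp0, ← hT, hF x hx0]
  have hFpk : F (x + (t0 + 1) • k) = τ (F (x + k')) := by
    have e : x + (t0 + 1) • k = ‖p‖ • T (x + k') := by
      rw [map_add, hT, hk', map_smul, T.apply_symm_apply, smul_add, smul_smul,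
        mul_inv_cancel₀ hpn.ne', one_smul]
      unfold nz
      rw [smul_smul, mul_inv_cancel₀ hpn.ne', one_smul, hp, add_smul, one_smul]
      abel
    have hTn : T (x + k') ≠ 0 := by
      rw [← norm_ne_zero_iff, T.norm_map, norm_ne_zero_iff]; exact hxk'
    rw [e, hhom _ hTn _ hpn, hF _ hxk']
  have hgv : g t0 = ξ (τ (F (x + k') - F x)) := by
    simp only [hg]
    rw [hFpk, ← hp, hFp, map_sub, map_sub]
  set w : V := F (x + k') - F x with hw
  have hyk : y = x + k := by rw [hk]; abel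
  have h1 : ‖F y - F (x + k')‖ ≤ nu F (‖k‖ / 8) := by
    rw [← F_nz hhom hy0, ← F_nz hhom hxk']
    refine le_nu hB (norm_nz hy0) (norm_nz hxk') ?_
    refine (nz_sub_le hy0 hxk').trans ?_
    rw [hy, div_one, hyk, add_sub_add_left_eq_sub]
    linarith
  have h2 : ‖w‖ ≤ nu F (4 * ‖k‖) := by
    rw [hw, ← F_nz hhom hxk', ← F_nz hhom hx0, norm_sub_rev]
    refine le_nu hB (norm_nz hx0) (norm_nz hxk') ?_
    refine (nz_sub_le hx0 hxk').trans ?_
    rw [hx, div_one, sub_add_cancel_left, norm_neg]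
    linarith
  have h3 : ‖F y - F x‖ ≤ |g t0| + ‖(F y - F x) - τ w‖ := by
    have e : ‖F y - F x‖ = ξ (τ w) + ξ ((F y - F x) - τ w) := by
      rw [← map_add, add_sub_cancel, hξ2]; rfl
    rw [e, ← hgv]
    exact add_le_add (le_abs_self _) ((le_abs_self _).trans (hξ _))
  have h4 : ‖(F y - F x) - τ w‖ ≤ ‖F y - F (x + k')‖ + θ * ‖w‖ := by
    have e : (F y - F x) - τ w = (F y - F (x + k')) - (τ w - w) := by
      rw [hw]; abel
    rw [e]
    exact (norm_sub_le _ _).trans (add_le_add le_rfl (hτ w))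
  have h5 : θ * ‖w‖ ≤ θ * nu F (4 * ‖k‖) := by gcongr
  rw [norm_sub_rev]
  linarith

end Princ

/-- Bounded equivariant maps are Lipschitz. -/
theorem principle {E : Type*} [NormedAddCommGroup E] [NormedSpace ℝ E]
    {V : Type*} [NormedAddCommGroup V] [NormedSpace ℝ V] (F : E → V) (B : ℝ)
    (hB : ∀ x : E, ‖x‖ = 1 → ‖F x‖ ≤ B)
    (hhom : ∀ x : E, x ≠ 0 → ∀ c : ℝ, 0 < c → F (c • x) = F x)
    (heq : ∀ ε : ℝ, 0 < ε → ∃ t : ℝ, 0 < t ∧ ∀ x y : E, ‖x‖ = 1 → ‖y‖ = 1 → ‖x - y‖ ≤ t →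
      ∃ (T : E ≃ₗᵢ[ℝ] E) (τ : V →ₗ[ℝ] V), T x = y ∧ CloseToId T ε ∧
        (∀ v : V, ‖τ v - v‖ ≤ ε * ‖v‖) ∧ ∀ z : E, z ≠ 0 → F (T z) = τ (F z)) :
    ∃ C : ℝ, 0 < C ∧ ∀ x y : E, ‖x‖ = 1 → ‖y‖ = 1 → ‖F x - F y‖ ≤ C * ‖x - y‖ := by
  by_cases hne : ∃ x : E, ‖x‖ = 1
  swap
  · exact ⟨1, one_pos, fun x _ hx => absurd ⟨x, hx⟩ hne⟩
  have hB0 : 0 ≤ B := by
    obtain ⟨x, hx⟩ := hne
    exact (norm_nonneg _).trans (hB x hx)
  have heq' : ∀ ε : ℝ, 0 < ε → ∃ t : ℝ, 0 < t ∧ Princ.Eqv F ε t := heq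
  obtain ⟨ta, hta, hEa⟩ := heq' (1 / 8) (by norm_num)
  obtain ⟨tc, htc, hEc⟩ := heq' (1 / 64) (by norm_num)
  set δ : ℝ := min (tc / 2) (1 / 128) with hδ
  have hδ0 : 0 < δ := by positivity
  have hδ1 : 2 * δ ≤ tc := by
    have := min_le_left (tc / 2) (1 / 128 : ℝ)
    linarith
  have hδ2 : δ ≤ 1 / 128 := min_le_right _ _
  set s1 : ℝ := min δ ta with hs1
  have hs10 : 0 < s1 := by positivity
  have hrec : ∀ s : ℝ, 0 ≤ s → s ≤ s1 →
      Princ.nu F s ≤ 16 / 3 * (B / δ) * s + 1 / 48 * Princ.nu F (4 * s) := by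
    intro s hs hs'
    have ha := Princ.step_a hB hne (by norm_num : (0 : ℝ) ≤ 1 / 8) hEa (n := 8) (by norm_num)
      (s := s / 8) (by positivity) (by
        have := min_le_right δ ta
        linarith)
    have e8 : ((8 : ℕ) : ℝ) * (s / 8) = s := by push_cast; ring
    rw [e8] at ha
    norm_num at ha
    have hc : Princ.nu F s ≤ 4 * B * s / δ + Princ.nu F (s / 8) + 1 / 64 * Princ.nu F (4 * s) := by
      refine Princ.nu_le hne hs fun x y hx hy hxy => ?_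
      by_cases h : x = y
      · subst h
        rw [sub_self, norm_zero]
        have h1 := Princ.nu_nonneg hB hne (s := s / 8) (by positivity)
        have h2 := Princ.nu_nonneg hB hne (s := 4 * s) (by positivity)
        positivity
      · have h1 := Princ.step_c hB hhom (fun z hz => Princ.F_cont hB hhom heq' hz)
          (by norm_num) le_rfl hEc hδ0 hδ1 hδ2 hx hy h
          (hxy.trans (hs'.trans (min_le_left _ _)))
        have h2 := Princ.nu_mono hB hne (s := ‖x - y‖ / 8) (s' := s / 8) (by positivity)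
          (by linarith)
        have h3 := Princ.nu_mono hB hne (s := 4 * ‖x - y‖) (s' := 4 * s) (by positivity)
          (by linarith)
        have h4 : 4 * B * ‖x - y‖ / δ ≤ 4 * B * s / δ := by gcongr
        linarith
    have e : 16 / 3 * (B / δ) * s = 4 / 3 * (4 * B * s / δ) := by ring
    rw [e]
    linarith
  set C : ℝ := 6 * (B / δ) + 2 * B / s1 + 1 with hC
  have hC0 : 0 < C := by positivity
  have hbig : ∀ s : ℝ, s1 ≤ s → Princ.nu F s ≤ C * s := by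
    intro s hs
    have hs0 : 0 ≤ s := hs10.le.trans hs
    have h1 : Princ.nu F s ≤ 2 * B := by
      refine Princ.nu_le hne hs0 fun x y hx hy _ => ?_
      have := norm_sub_le (F x) (F y)
      have := hB x hx
      have := hB y hy
      linarith
    have h2 : 2 * B ≤ 2 * B / s1 * s := by
      rw [div_mul_eq_mul_div, le_div_iff₀ hs10]
      nlinarith
    have h3 : 2 * B / s1 * s ≤ C * s := by
      have : 0 ≤ B / δ := by positivity
      gcongr
      rw [hC]; linarith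
    linarith
  have hall : ∀ n : ℕ, ∀ s : ℝ, s1 / 4 ^ n ≤ s → Princ.nu F s ≤ C * s := by
    intro n
    induction n with
    | zero => intro s hs; exact hbig s (by simpa using hs)
    | succ n ih =>
      intro s hs
      rcases le_or_gt s1 s with h | h
      · exact hbig s h
      · have hs0 : 0 ≤ s := le_trans (by positivity) hs
        have h1 := hrec s hs0 h.le
        have h2 := ih (4 * s) (by
          have : s1 / 4 ^ n = 4 * (s1 / 4 ^ (n + 1)) := by field_simp; ring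
          rw [this]; linarith)
        have h3 : 16 / 3 * (B / δ) * s ≤ 11 / 12 * C * s := by
          have h4 : 0 ≤ B / δ := by positivity
          have h5 : 0 ≤ 2 * B / s1 := by positivity
          refine mul_le_mul_of_nonneg_right ?_ hs0
          rw [hC]; linarith
        nlinarith
  refine ⟨C, hC0, fun x y hx hy => ?_⟩
  by_cases h : x = y
  · subst h; simp
  · have hpos : 0 < ‖x - y‖ := norm_pos_iff.2 (sub_ne_zero.2 h)
    obtain ⟨n, hn⟩ := exists_pow_lt_of_lt_one (x := ‖x - y‖ / s1) (y := (1 / 4 : ℝ))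
      (by positivity) (by norm_num)
    have h1 : s1 / 4 ^ n ≤ ‖x - y‖ := by
      rw [lt_div_iff₀ hs10] at hn
      have : s1 / 4 ^ n = (1 / 4) ^ n * s1 := by
        rw [one_div, inv_pow]; ring
      rw [this]; exact hn.le
    exact (Princ.le_nu hB hx hy le_rfl).trans (hall n _ h1)

end Pool.Agent.Helper53.BM
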